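import Pool.Agent.H84.NSp

namespace Pool.Agent.Results.MP_60be70_gt.Full

theorem result (k m : ℕ∞) (hk : 1 ≤ k) (hkm : k ≤ m) :
    ∃ (X : Type) (_ : TopologicalSpace X), T2Space X ∧ RegularSpace X ∧ ∀ n : ℕ, 0 < n →
      (ParacompactSpace (Fin n → X) ↔ (n : ℕ∞) < m) ∧
      (LindelofSpace (Fin n → X) ↔ (n : ℕ∞) < k) :=
  Pool.Agent.H84.NSp.main k m hk hkm

end Pool.Agent.Results.MP_60be70_gt.Full
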